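import Pool.Agent.Q41.AB.Stm

/-!
The extremal argument `S_Ext` of `Pool.Agent.Q41.AB.Stm`.
-/

set_option autoImplicit false

namespace Pool.Agent.Q277.AB

open Pool.Agent.Q41.AB (wp Pieces S_Ext)

variable {ι ρ κ : Type} [Fintype ι] [Fintype ρ] [Fintype κ]

/-- data: multiplicities of the family, degree, orders, defect -/
abbrev Dt (ι ρ κ : Type) := (ι → ℕ) × (ρ → ℕ) × (κ → ℕ) × (κ → ℕ)

def IsD (δ : κ → ρ → ℕ) (Λ : Set (κ → ℕ)) (V0 : ι → κ → ℕ) (x : Dt ι ρ κ) : Prop :=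
  x.2.2.1 ∈ Λ ∧ ∀ c, ∑ i, x.1 i * V0 i c + x.2.2.2 c = x.2.2.1 c + ∑ l, x.2.1 l * δ c l

def WW (N0 : ℕ) (D : ρ → ℕ) (r : (κ → ℕ) → ℕ) (x : Dt ι ρ κ) : ℤ :=
  N0 * ∑ i, (x.1 i : ℤ) - ∑ l, (D l : ℤ) * x.2.1 l - r x.2.2.1

def mm (x : Dt ι ρ κ) : ℤ := ∑ l, (x.2.1 l : ℤ)

theorem WW_add {N0 : ℕ} {D : ρ → ℕ} {r : (κ → ℕ) → ℕ} {Λ : Set (κ → ℕ)}
    (hsup : ∀ v w, v + w ∈ Λ → r v + r w ≤ r (v + w)) (y z : Dt ι ρ κ)
    (h : (y + z).2.2.1 ∈ Λ) : WW N0 D r (y + z) ≤ WW N0 D r y + WW N0 D r z := by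
  have h1 := hsup y.2.2.1 z.2.2.1 h
  have h2 : ((r y.2.2.1 : ℤ) + r z.2.2.1) ≤ r (y.2.2.1 + z.2.2.1) := by exact_mod_cast h1
  simp only [WW, Prod.fst_add, Prod.snd_add, Pi.add_apply, Nat.cast_add, Finset.sum_add_distrib,
    mul_add]
  linarith

theorem isD_sub {δ : κ → ρ → ℕ} {Λ : Set (κ → ℕ)} {V0 : ι → κ → ℕ}
    (hΛ : ∀ v ∈ Λ, ∀ w : κ → ℕ, (∀ c, w c ≠ 0 → v c ≠ 0) → w ∈ Λ) {y z : Dt ι ρ κ}
    (hx : IsD δ Λ V0 (y + z)) (hy : IsD δ Λ V0 y) : IsD δ Λ V0 z := by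
  refine ⟨hΛ _ hx.1 _ fun c hc => ?_, fun c => ?_⟩
  · simp only [Prod.fst_add, Prod.snd_add, Pi.add_apply]
    omega
  · have h1 := hx.2 c
    have h2 := hy.2 c
    simp only [Prod.fst_add, Prod.snd_add, Pi.add_apply, add_mul, Finset.sum_add_distrib] at h1
    omega

theorem mm_add (y z : Dt ι ρ κ) : mm (y + z) = mm y + mm z := by
  simp [mm, Finset.sum_add_distrib]

theorem mm_nonneg (y : Dt ι ρ κ) : 0 ≤ mm y := Finset.sum_nonneg fun _ _ => Nat.cast_nonneg _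

theorem bound {δ : κ → ρ → ℕ} {Λ : Set (κ → ℕ)} {V0 : ι → κ → ℕ} {N0 : ℕ} {D : ρ → ℕ}
    {r : (κ → ℕ) → ℕ} (hΛ : ∀ v ∈ Λ, ∀ w : κ → ℕ, (∀ c, w c ≠ 0 → v c ≠ 0) → w ∈ Λ)
    (hsup : ∀ v w, v + w ∈ Λ → r v + r w ≤ r (v + w))
    (h0 : ∀ x : Dt ι ρ κ, IsD δ Λ V0 x → mm x = 0 → WW N0 D r x ≤ 0)
    (x0 : Dt ι ρ κ) (hx0 : IsD δ Λ V0 x0) (hW0 : 0 < WW N0 D r x0) :
    ∃ η : ℚ, 0 < η ∧ (∀ x : Dt ι ρ κ, IsD δ Λ V0 x → (WW N0 D r x : ℚ) ≤ η * mm x) ∧
      ∃ x : Dt ι ρ κ, IsD δ Λ V0 x ∧ 0 < mm x ∧ (WW N0 D r x : ℚ) = η * mm x := by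
  classical
  have hm0 : 0 < mm x0 := by
    rcases (mm_nonneg x0).lt_or_eq with h | h
    · exact h
    · exact absurd (h0 x0 hx0 h.symm) (not_le.2 hW0)
  have hfin : {v | Minimal (· ∈ {w : Dt ι ρ κ | IsD δ Λ V0 w ∧ w ≠ 0}) v}.Finite := by
    have h2 : IsAntichain (· ≤ ·) {v | Minimal (· ∈ {w : Dt ι ρ κ | IsD δ Λ V0 w ∧ w ≠ 0}) v} :=
      setOfPred_minimal_antichain _
    exact h2.finite_of_partiallyWellOrderedOn (Set.isPWO_of_wellQuasiOrderedLE _)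
  obtain ⟨T, hT⟩ : ∃ T : Finset (Dt ι ρ κ), ∀ v, v ∈ T ↔
      Minimal (· ∈ {w : Dt ι ρ κ | IsD δ Λ V0 w ∧ w ≠ 0}) v :=
    ⟨hfin.toFinset, fun v => hfin.mem_toFinset⟩
  obtain ⟨y, hy, hmax⟩ := (insert x0 (T.filter fun x => 0 < mm x)).exists_max_image
    (fun x => (WW N0 D r x : ℚ) / mm x) ⟨x0, Finset.mem_insert_self _ _⟩
  have hyD : IsD δ Λ V0 y ∧ 0 < mm y := by
    rcases Finset.mem_insert.1 hy with h | h
    · rw [h]; exact ⟨hx0, hm0⟩
    · exact ⟨((hT y).1 (Finset.mem_filter.1 h).1).1.1, (Finset.mem_filter.1 h).2⟩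
  have hyq : (0 : ℚ) < mm y := by exact_mod_cast hyD.2
  have hη : (0 : ℚ) < (WW N0 D r y : ℚ) / mm y := by
    refine lt_of_lt_of_le ?_ (hmax x0 (Finset.mem_insert_self _ _))
    exact div_pos (by exact_mod_cast hW0) (by exact_mod_cast hm0)
  refine ⟨(WW N0 D r y : ℚ) / mm y, hη, fun x => ?_, y, hyD.1, hyD.2, by field_simp⟩
  induction x using WellFoundedLT.induction with
  | ind x ih =>
  intro hx
  by_cases hx1 : x = 0
  · have h1 : mm x = 0 := by rw [hx1]; simp [mm]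
    have h2 := h0 x hx h1
    rw [h1]
    simpa using h2
  obtain ⟨y', hy', hmin⟩ := (Set.isPWO_of_wellQuasiOrderedLE
    {w : Dt ι ρ κ | IsD δ Λ V0 w ∧ w ≠ 0}).exists_le_minimal ⟨hx, hx1⟩
  obtain ⟨z, hz⟩ := exists_add_of_le hy'
  have hzD : IsD δ Λ V0 z := isD_sub hΛ (hz ▸ hx) hmin.1.1
  have hzx : z < x := by
    refine lt_of_le_of_ne (hz ▸ le_add_self) fun h => hmin.1.2 ?_
    rw [h] at hz
    exact (right_eq_add.1 hz)
  have h1 := ih z hzx hzD
  have h2 : WW N0 D r x ≤ WW N0 D r y' + WW N0 D r z := by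
    rw [hz]
    exact WW_add hsup _ _ (hz ▸ hx.1)
  have h3 : (WW N0 D r y' : ℚ) ≤ (WW N0 D r y : ℚ) / mm y * mm y' := by
    rcases (mm_nonneg y').lt_or_eq with h | h
    · have h4 := hmax y' (Finset.mem_insert_of_mem (Finset.mem_filter.2 ⟨(hT y').2 hmin, h⟩))
      rwa [div_le_iff₀ (by exact_mod_cast h)] at h4
    · rw [← h]
      have h5 := h0 y' hmin.1.1 h.symm
      simpa using h5
  have h4 : mm x = mm y' + mm z := by rw [hz, mm_add]
  have h5 : (WW N0 D r x : ℚ) ≤ WW N0 D r y' + WW N0 D r z := by exact_mod_cast h2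
  rw [h4]
  push_cast
  linarith [mul_add ((WW N0 D r y : ℚ) / mm y) (mm y' : ℚ) (mm z : ℚ)]

theorem sigma_sum (c' : ι → ℕ) (V0 : ι → κ → ℕ) (c : κ) :
    ∑ i : (Σ j, Fin (c' j)), V0 i.1 c = ∑ j, c' j * V0 j c := by
  rw [Fintype.sum_sigma]
  simp

theorem W_mu0 {δ : κ → ρ → ℕ} {Λ A : Set (κ → ℕ)} {V0 : ι → κ → ℕ} {N0 : ℕ} {D : ρ → ℕ}
    {r : (κ → ℕ) → ℕ} (hΛ : ∀ v ∈ Λ, ∀ w : κ → ℕ, (∀ c, w c ≠ 0 → v c ≠ 0) → w ∈ Λ)
    (hA : A ⊆ Λ)
    (hsup : ∀ v w, v + w ∈ Λ → r v + r w ≤ r (v + w))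
    (hhom : ∀ (n : ℕ) (v : κ → ℕ), v ∈ Λ → r (n • v) = n * r v)
    (hN0 : ∀ v ∈ A, N0 ≤ r v) (hV : ∀ i, V0 i ∈ A)
    (x : Dt ι ρ κ) (hx : IsD δ Λ V0 x) (hm : mm x = 0) : WW N0 D r x ≤ 0 := by
  classical
  have h1 : ∀ l, x.2.1 l = 0 := by
    intro l
    have h2 := (Finset.sum_eq_zero_iff_of_nonneg (s := Finset.univ)
      (f := fun l => (x.2.1 l : ℤ)) fun _ _ => Nat.cast_nonneg _).1 hm l (Finset.mem_univ l)
    exact_mod_cast h2
  have h2 : ∀ c, x.2.2.1 c = ∑ i, x.1 i * V0 i c + x.2.2.2 c := by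
    intro c
    have h3 := hx.2 c
    simp only [h1, zero_mul, Finset.sum_const_zero, add_zero] at h3
    exact h3.symm
  have hle : ∀ (s : Finset ι) (c : κ), ∑ i ∈ s, x.1 i * V0 i c ≤ x.2.2.1 c := by
    intro s c
    rw [h2 c]
    exact le_add_right (Finset.sum_le_sum_of_subset (Finset.subset_univ s))
  have hmem : ∀ s : Finset ι, (fun c => ∑ i ∈ s, x.1 i * V0 i c) ∈ Λ := by
    intro s
    refine hΛ _ hx.1 _ fun c hc => ?_
    have h3 := hle s c
    have h4 : ∑ i ∈ s, x.1 i * V0 i c ≠ 0 := hc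
    omega
  have h3 : ∀ s : Finset ι, N0 * ∑ i ∈ s, x.1 i ≤ r (fun c => ∑ i ∈ s, x.1 i * V0 i c) := by
    intro s
    induction s using Finset.induction_on with
    | empty => simp
    | insert a s ha ih =>
      have h4 : (fun c => ∑ i ∈ insert a s, x.1 i * V0 i c) =
          x.1 a • V0 a + fun c => ∑ i ∈ s, x.1 i * V0 i c := by
        funext c
        simp [Finset.sum_insert ha]
      have h5 := hsup (x.1 a • V0 a) (fun c => ∑ i ∈ s, x.1 i * V0 i c) (h4 ▸ hmem (insert a s))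
      rw [h4, Finset.sum_insert ha]
      rw [hhom _ _ (hA (hV a))] at h5
      have h6 : N0 * x.1 a ≤ x.1 a * r (V0 a) := by
        rw [mul_comm]
        exact Nat.mul_le_mul_left _ (hN0 _ (hV a))
      rw [mul_add]
      omega
  have h4 : x.2.2.1 = (fun c => ∑ i, x.1 i * V0 i c) + x.2.2.2 := by
    funext c
    exact h2 c
  have h5 := hsup (fun c => ∑ i, x.1 i * V0 i c) x.2.2.2 (h4 ▸ hx.1)
  rw [← h4] at h5
  have h6 := h3 Finset.univ
  have h7 : ((N0 * ∑ i, x.1 i : ℕ) : ℤ) ≤ r x.2.2.1 := by exact_mod_cast (by omega)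
  simp only [WW, h1]
  push_cast at h7
  simp only [Nat.cast_zero, mul_zero, Finset.sum_const_zero, sub_zero]
  linarith

theorem W_v0 {δ : κ → ρ → ℕ} {Λ A : Set (κ → ℕ)} {V0 : ι → κ → ℕ} {N0 : ℕ} {D : ρ → ℕ}
    {r : (κ → ℕ) → ℕ} {s : ρ → ℤ} (hD : ∀ l, (N0 : ℤ) * s l ≤ D l)
    (hs : ∀ {ι : Type} [Fintype ι] (V : ι → κ → ℕ) (μ : ρ → ℕ), (∀ i, V i ∈ A) →
      (∀ c, ∑ i, V i c ≤ ∑ l, μ l * δ c l) → (Fintype.card ι : ℤ) ≤ ∑ l, (μ l : ℤ) * s l)
    (hV : ∀ i, V0 i ∈ A) (x : Dt ι ρ κ) (hx : IsD δ Λ V0 x) (hv : x.2.2.1 = 0) :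
    WW N0 D r x ≤ 0 := by
  have h1 := hs (fun i : (Σ j, Fin (x.1 j)) => V0 i.1) x.2.1 (fun i => hV _) (fun c => by
    rw [sigma_sum]
    have h2 := hx.2 c
    rw [hv] at h2
    simp only [Pi.zero_apply, zero_add] at h2
    omega)
  simp only [Fintype.card_sigma, Fintype.card_fin, Nat.cast_sum] at h1
  have h2 : (N0 : ℤ) * ∑ i, (x.1 i : ℤ) ≤ ∑ l, (D l : ℤ) * x.2.1 l := by
    calc (N0 : ℤ) * ∑ i, (x.1 i : ℤ) ≤ N0 * ∑ l, (x.2.1 l : ℤ) * s l :=
          mul_le_mul_of_nonneg_left h1 (Nat.cast_nonneg _)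
      _ = ∑ l, (N0 * s l) * x.2.1 l := by
          rw [Finset.mul_sum]
          exact Finset.sum_congr rfl fun l _ => by ring
      _ ≤ _ := Finset.sum_le_sum fun l _ => mul_le_mul_of_nonneg_right (hD l) (Nat.cast_nonneg _)
  have h3 : (0 : ℤ) ≤ r x.2.2.1 := Nat.cast_nonneg _
  simp only [WW]
  linarith

/-- number of nonzero orders -/
noncomputable def cv (x : Dt ι ρ κ) : ℕ := by
  classical exact (Finset.univ.filter fun c => x.2.2.1 c ≠ 0).card

def sz (x : Dt ι ρ κ) : ℕ := ∑ i, x.1 i + ∑ l, x.2.1 l + ∑ c, x.2.2.1 c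

theorem key {δ : κ → ρ → ℕ} {Λ A : Set (κ → ℕ)} {V0 : ι → κ → ℕ} {N0 : ℕ} {D : ρ → ℕ}
    {r : (κ → ℕ) → ℕ} {s : ρ → ℤ}
    (hΛ : ∀ v ∈ Λ, ∀ w : κ → ℕ, (∀ c, w c ≠ 0 → v c ≠ 0) → w ∈ Λ)
    (hsup : ∀ v w, v + w ∈ Λ → r v + r w ≤ r (v + w))
    (hhom : ∀ (n : ℕ) (v : κ → ℕ), v ∈ Λ → r (n • v) = n * r v)
    (hP : ∀ {ι : Type} [Fintype ι] (V : ι → κ → ℕ) (μ : ρ → ℕ) (u v : κ → ℕ), v ∈ Λ → v ≠ 0 →
      (∀ i, V i ∈ A) → (∀ c, ∑ i, V i c + u c = v c + ∑ l, μ l * δ c l) →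
      ∑ l, (μ l : ℤ) * s l < Fintype.card ι → Pieces δ Λ r D V μ u v)
    (hV : ∀ i, V0 i ∈ A) {η : ℚ} (hη : 0 < η)
    (hb : ∀ x : Dt ι ρ κ, IsD δ Λ V0 x → (WW N0 D r x : ℚ) ≤ η * mm x)
    (x : Dt ι ρ κ) (hx : IsD δ Λ V0 x) (hm : 0 < mm x) (ht : (WW N0 D r x : ℚ) = η * mm x)
    (hmin : ∀ y : Dt ι ρ κ, IsD δ Λ V0 y → 0 < mm y → (WW N0 D r y : ℚ) = η * mm y →
      cv x < cv y ∨ (cv x = cv y ∧ sz x ≤ sz y))
    (hv0 : x.2.2.1 ≠ 0)
    (c' e : ι → ℕ) (he : ∀ j, x.1 j = c' j + e j) (u' : κ → ℕ)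
    (hu' : ∀ c, u' c = x.2.2.2 c + ∑ j, e j * V0 j c) (hu0 : u' ≠ 0)
    (hlt : ∑ l, (x.2.1 l : ℤ) * s l < ∑ j, (c' j : ℤ)) : False := by
  classical
  obtain ⟨T, _, t0, τ, kk, P1, P2, P3, P4, P5⟩ := hP (fun i : (Σ j, Fin (c' j)) => V0 i.1) x.2.1 u'
    x.2.2.1 hx.1 hv0 (fun i => hV _) (fun c => by
      rw [sigma_sum, hu' c, ← hx.2 c]
      simp only [he, add_mul, Finset.sum_add_distrib]
      ring) (by simpa using hlt)
  -- the pieces
  let ct : T → ι → ℕ := fun t j => (∑ k : Fin (c' j), if τ ⟨j, k⟩ = t then 1 else 0) +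
    if t = t0 then e j else 0
  let ut : T → κ → ℕ := fun t c => if t = t0 then x.2.2.2 c else 0
  have hwp : ∀ t c, wp δ (fun i : (Σ j, Fin (c' j)) => V0 i.1) u' t0 τ kk t c =
      ∑ j, (ct t j : ℤ) * V0 j c + (ut t c : ℤ) - ∑ l, (kk t l : ℤ) * δ c l := by
    intro t c
    have h1 : (∑ i : (Σ j, Fin (c' j)), if τ i = t then (V0 i.1 c : ℤ) else 0) =
        ∑ j, ((∑ k : Fin (c' j), if τ ⟨j, k⟩ = t then 1 else 0 : ℕ) : ℤ) * V0 j c := by
      rw [Fintype.sum_sigma]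
      refine Finset.sum_congr rfl fun j _ => ?_
      push_cast
      rw [Finset.sum_mul]
      exact Finset.sum_congr rfl fun k _ => by split_ifs <;> simp
    have h2 : (wp δ (fun i : (Σ j, Fin (c' j)) => V0 i.1) u' t0 τ kk t c : ℤ) =
        (∑ i : (Σ j, Fin (c' j)), if τ i = t then (V0 i.1 c : ℤ) else 0) +
        (if t = t0 then (u' c : ℤ) else 0) - ∑ l, (kk t l : ℤ) * δ c l := by
      simp only [wp]
    rw [h2, h1]
    simp only [ct, ut]
    by_cases h : t = t0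
    · simp only [h, if_true, hu' c]
      push_cast
      simp only [add_mul, Finset.sum_add_distrib]
      ring
    · simp only [h, if_false]
      push_cast
      simp only [add_mul, Finset.sum_add_distrib]
      simp
  have hct : ∀ j, ∑ t, ct t j = x.1 j := by
    intro j
    simp only [ct, Finset.sum_add_distrib]
    rw [Finset.sum_comm, he j]
    simp
  have hut : ∀ c, ∑ t, ut t c = x.2.2.2 c := by
    intro c
    simp [ut]
  obtain ⟨w0, hw0⟩ : ∃ w0 : T → κ → ℤ, w0 = wp δ (fun i : (Σ j, Fin (c' j)) => V0 i.1) u' t0 τ kk :=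
    ⟨_, rfl⟩
  rw [← hw0] at hwp P2 P3 P4
  have hxq : ∀ c, ∑ i, (x.1 i : ℤ) * V0 i c + x.2.2.2 c =
      x.2.2.1 c + ∑ l, (x.2.1 l : ℤ) * δ c l := fun c => by exact_mod_cast hx.2 c
  -- a combination of a piece with the whole
  let Y : T → ℕ → ℕ → (κ → ℕ) → Dt ι ρ κ := fun t b a w =>
    (fun j => b * ct t j + a * x.1 j, fun l => b * kk t l + a * x.2.1 l, w,
      fun c => b * ut t c + a * x.2.2.2 c)
  have hY : ∀ (t : T) (b a : ℕ) (w : κ → ℕ), w ∈ Λ → (∀ c, (w c : ℤ) = b * w0 t c + a * x.2.2.1 c) →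
      IsD δ Λ V0 (Y t b a w) := by
    intro t b a w hw hwc
    refine ⟨hw, fun c => ?_⟩
    have h1 := hwc c
    have h2 := hwp t c
    have h3 := hxq c
    have h4 : ((∑ i, (Y t b a w).1 i * V0 i c + (Y t b a w).2.2.2 c : ℕ) : ℤ) =
        ((w c + ∑ l, (Y t b a w).2.1 l * δ c l : ℕ) : ℤ) := by
      simp only [Y]
      push_cast
      simp only [add_mul, Finset.sum_add_distrib, mul_assoc, ← Finset.mul_sum]
      rw [h1, h2]
      linear_combination (a : ℤ) * h3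
    exact_mod_cast h4
  have hWY : ∀ (t : T) (b a : ℕ) (w : κ → ℕ), WW N0 D r (Y t b a w) = b * (N0 * ∑ j, (ct t j : ℤ) -
      ∑ l, (D l : ℤ) * kk t l) + a * (WW N0 D r x + r x.2.2.1) - r w := by
    intro t b a w
    simp only [WW, Y]
    push_cast
    simp only [mul_add, Finset.sum_add_distrib, ← Finset.mul_sum]
    have h1 : ∑ l, (D l : ℤ) * (b * kk t l) = b * ∑ l, (D l : ℤ) * kk t l := by
      rw [Finset.mul_sum]
      exact Finset.sum_congr rfl fun _ _ => by ring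
    have h2 : ∑ l, (D l : ℤ) * (a * x.2.1 l) = a * ∑ l, (D l : ℤ) * x.2.1 l := by
      rw [Finset.mul_sum]
      exact Finset.sum_congr rfl fun _ _ => by ring
    rw [h1, h2]
    ring
  have hmY : ∀ (t : T) (b a : ℕ) (w : κ → ℕ), mm (Y t b a w) = b * ∑ l, (kk t l : ℤ) + a * mm x := by
    intro t b a w
    simp only [mm, Y]
    push_cast
    simp only [Finset.sum_add_distrib, ← Finset.mul_sum]
  -- a large multiple
  obtain ⟨R, hR⟩ : ∃ R : ℕ, ∀ t c, -(R : ℤ) ≤ w0 t c := by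
    refine ⟨∑ t, ∑ c, (w0 t c).natAbs, fun t c => ?_⟩
    have h1 : (w0 t c).natAbs ≤ ∑ c, (w0 t c).natAbs :=
      Finset.single_le_sum (f := fun c => (w0 t c).natAbs) (fun _ _ => Nat.zero_le _)
        (Finset.mem_univ c)
    have h2 : ∑ c, (w0 t c).natAbs ≤ ∑ t, ∑ c, (w0 t c).natAbs :=
      Finset.single_le_sum (f := fun t => ∑ c, (w0 t c).natAbs) (fun _ _ => Nat.zero_le _)
        (Finset.mem_univ t)
    omega
  have hnn : ∀ t c, 0 ≤ w0 t c + R * x.2.2.1 c := by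
    intro t c
    rcases Nat.eq_zero_or_pos (x.2.2.1 c) with h | h
    · rw [h]
      simpa using P2 t c h
    · have h1 := hR t c
      have h2 : (R : ℤ) * 1 ≤ R * x.2.2.1 c :=
        mul_le_mul_of_nonneg_left (by exact_mod_cast h) (Nat.cast_nonneg _)
      linarith
  let w1 : T → κ → ℕ := fun t c => (w0 t c + R * x.2.2.1 c).toNat
  have hw1 : ∀ t c, (w1 t c : ℤ) = w0 t c + R * x.2.2.1 c := fun t c => Int.toNat_of_nonneg (hnn t c)
  have hw1Λ : ∀ t, w1 t ∈ Λ := fun t => P3 R (w1 t) t (hw1 t)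
  have h4 := P4 R w1 hw1
  let E : T → ℤ := fun t => N0 * ∑ j, (ct t j : ℤ) - ∑ l, (D l : ℤ) * kk t l -
    (r (w1 t) - R * r x.2.2.1)
  have hE : ∀ t, (E t : ℚ) ≤ η * ((∑ l, (kk t l : ℤ) : ℤ) : ℚ) := by
    intro t
    have h5 := hb (Y t 1 R (w1 t)) (hY t 1 R _ (hw1Λ t) fun c => by rw [hw1 t c]; simp)
    rw [hWY, hmY] at h5
    simp only [E]
    push_cast at h5 ⊢
    rw [ht] at h5
    linarith
  have hEs : WW N0 D r x ≤ ∑ t, E t := by
    have h5 : ∑ t, (N0 : ℤ) * ∑ j, (ct t j : ℤ) = N0 * ∑ j, (x.1 j : ℤ) := by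
      rw [← Finset.mul_sum, Finset.sum_comm]
      congr 1
      refine Finset.sum_congr rfl fun j _ => ?_
      exact_mod_cast hct j
    have h6 : ∑ t, E t = ∑ t, (N0 : ℤ) * ∑ j, (ct t j : ℤ) -
        ∑ t, ((∑ l, (D l : ℤ) * kk t l) + r (w1 t) - R * r x.2.2.1) := by
      rw [← Finset.sum_sub_distrib]
      exact Finset.sum_congr rfl fun t _ => by simp only [E]; ring
    rw [h6, h5]
    simp only [WW]
    linarith
  have hkk : ∑ t, ∑ l, (kk t l : ℤ) ≤ mm x := by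
    rw [Finset.sum_comm]
    exact Finset.sum_le_sum fun l _ => by exact_mod_cast P1 l
  have hEq : (∑ t, (E t : ℚ)) ≤ η * ((∑ t, ∑ l, (kk t l : ℤ) : ℤ) : ℚ) := by
    push_cast
    rw [Finset.mul_sum]
    exact Finset.sum_le_sum fun t _ => by
      have := hE t
      push_cast at this
      exact this
  have hEs' : (WW N0 D r x : ℚ) ≤ ∑ t, (E t : ℚ) := by exact_mod_cast hEs
  have hkk1 : ∑ t, ∑ l, (kk t l : ℤ) = mm x := by
    refine le_antisymm hkk ?_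
    have h5 : η * (mm x : ℚ) ≤ η * ((∑ t, ∑ l, (kk t l : ℤ) : ℤ) : ℚ) := by
      rw [← ht]; linarith
    have h6 := le_of_mul_le_mul_left h5 hη
    exact_mod_cast h6
  have hEt : ∀ t, (E t : ℚ) = η * ((∑ l, (kk t l : ℤ) : ℤ) : ℚ) := by
    have h5 : ∑ t, (η * ((∑ l, (kk t l : ℤ) : ℤ) : ℚ) - E t) ≤ 0 := by
      rw [Finset.sum_sub_distrib, ← Finset.mul_sum]
      have h6 : (∑ t, ((∑ l, (kk t l : ℤ) : ℤ) : ℚ)) = mm x := by exact_mod_cast hkk1
      rw [h6, ← ht]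
      linarith
    have h7 : ∑ t, (η * ((∑ l, (kk t l : ℤ) : ℤ) : ℚ) - E t) = 0 :=
      le_antisymm h5 (Finset.sum_nonneg fun t _ => sub_nonneg.2 (hE t))
    intro t
    have h8 := (Finset.sum_eq_zero_iff_of_nonneg fun t _ => sub_nonneg.2 (hE t)).1 h7 t
      (Finset.mem_univ t)
    linarith
  have hkl : ∀ l, ∑ t, kk t l = x.2.1 l := by
    have h5 : ∑ l, ∑ t, (kk t l : ℤ) = ∑ l, (x.2.1 l : ℤ) := by
      rw [Finset.sum_comm]; exact hkk1
    have h6 := (Finset.sum_eq_sum_iff_of_le (fun l _ => (by exact_mod_cast P1 l :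
      ∑ t, (kk t l : ℤ) ≤ (x.2.1 l : ℤ)))).1 h5
    intro l
    exact_mod_cast h6 l (Finset.mem_univ l)
  have hws : ∀ c, ∑ t, w0 t c = x.2.2.1 c := by
    intro c
    have h5 : ∑ t, w0 t c = ∑ t, (∑ j, (ct t j : ℤ) * V0 j c + (ut t c : ℤ) -
        ∑ l, (kk t l : ℤ) * δ c l) := Finset.sum_congr rfl fun t _ => hwp t c
    rw [h5, Finset.sum_sub_distrib, Finset.sum_add_distrib]
    have h6 : ∑ t, ∑ j, (ct t j : ℤ) * V0 j c = ∑ j, (x.1 j : ℤ) * V0 j c := by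
      rw [Finset.sum_comm]
      refine Finset.sum_congr rfl fun j _ => ?_
      rw [← Finset.sum_mul, ← hct j]
      push_cast
      rfl
    have h7 : ∑ t, ∑ l, (kk t l : ℤ) * δ c l = ∑ l, (x.2.1 l : ℤ) * δ c l := by
      rw [Finset.sum_comm]
      refine Finset.sum_congr rfl fun j _ => ?_
      rw [← Finset.sum_mul, ← hkl j]
      push_cast
      rfl
    have h8 : ∑ t, (ut t c : ℤ) = x.2.2.2 c := by exact_mod_cast hut c
    rw [h6, h7, h8]
    linarith [hxq c]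
  have hw00 : ∀ t c, x.2.2.1 c = 0 → w0 t c = 0 := by
    intro t c hc
    have h5 := hws c
    rw [hc] at h5
    exact (Finset.sum_eq_zero_iff_of_nonneg fun t _ => P2 t c hc).1 (by simpa using h5) t
      (Finset.mem_univ t)
  by_cases hneg : ∃ t c, w0 t c < 0
  · -- a piece with a negative order
    obtain ⟨t, c1, hc1⟩ := hneg
    have hc1v : 0 < x.2.2.1 c1 := by
      rcases Nat.eq_zero_or_pos (x.2.2.1 c1) with h | h
      · rw [hw00 t c1 h] at hc1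
        exact absurd hc1 (lt_irrefl _)
      · exact h
    obtain ⟨c2, hc2, hmax⟩ := (Finset.univ.filter fun c => 0 < x.2.2.1 c).exists_max_image
      (fun c => (-(w0 t c : ℚ)) / x.2.2.1 c) ⟨c1, by simpa using hc1v⟩
    have hc2v : 0 < x.2.2.1 c2 := by simpa using hc2
    have hc2q : (0 : ℚ) < x.2.2.1 c2 := by exact_mod_cast hc2v
    have hc1q : (0 : ℚ) < x.2.2.1 c1 := by exact_mod_cast hc1v
    have hc2n : w0 t c2 < 0 := by
      have h5 := hmax c1 (by simpa using hc1v)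
      have h6 : (0 : ℚ) < (-(w0 t c1 : ℚ)) / x.2.2.1 c1 :=
        div_pos (by have : (w0 t c1 : ℚ) < 0 := by exact_mod_cast hc1
                    linarith) hc1q
      have h7 : (0 : ℚ) < (-(w0 t c2 : ℚ)) / x.2.2.1 c2 := lt_of_lt_of_le h6 h5
      rw [lt_div_iff₀ hc2q] at h7
      have h8 : (w0 t c2 : ℚ) < 0 := by linarith
      exact_mod_cast h8
    obtain ⟨a, ha⟩ : ∃ a : ℕ, (a : ℤ) = - w0 t c2 := ⟨(- w0 t c2).toNat, Int.toNat_of_nonneg (by omega)⟩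
    have ha0 : 0 < a := by omega
    have hnn2 : ∀ c, 0 ≤ (x.2.2.1 c2 : ℤ) * w0 t c + a * x.2.2.1 c := by
      intro c
      rcases Nat.eq_zero_or_pos (x.2.2.1 c) with h | h
      · rw [hw00 t c h, h]
        simp
      · have hcq : (0 : ℚ) < x.2.2.1 c := by exact_mod_cast h
        have h5 := hmax c (by simpa using h)
        rw [div_le_div_iff₀ hcq hc2q] at h5
        have h6 : (-(w0 t c)) * (x.2.2.1 c2 : ℤ) ≤ (-(w0 t c2)) * x.2.2.1 c := by exact_mod_cast h5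
        rw [ha]
        linarith
    let w2 : κ → ℕ := fun c => ((x.2.2.1 c2 : ℤ) * w0 t c + a * x.2.2.1 c).toNat
    have hw2 : ∀ c, (w2 c : ℤ) = (x.2.2.1 c2 : ℤ) * w0 t c + a * x.2.2.1 c := fun c =>
      Int.toNat_of_nonneg (hnn2 c)
    have hw2s : ∀ c, w2 c ≠ 0 → x.2.2.1 c ≠ 0 := by
      intro c hc h
      apply hc
      have h5 := hw2 c
      rw [hw00 t c h, h] at h5
      simpa using h5
    have hw2Λ : w2 ∈ Λ := hΛ _ hx.1 _ hw2s
    have hw2c : w2 c2 = 0 := by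
      have h5 := hw2 c2
      rw [ha] at h5
      have h6 : (w2 c2 : ℤ) = 0 := by rw [h5]; ring
      exact_mod_cast h6
    -- the order of the combination
    have haR : a ≤ x.2.2.1 c2 * R := by
      have h5 := hR t c2
      have h6 : 1 * R ≤ x.2.2.1 c2 * R := Nat.mul_le_mul_right _ hc2v
      have h7 : (a : ℤ) ≤ R := by omega
      have h8 : a ≤ R := by exact_mod_cast h7
      omega
    obtain ⟨n, hn⟩ := Nat.exists_eq_add_of_le haR
    have hsum : w2 + n • x.2.2.1 = x.2.2.1 c2 • w1 t := by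
      funext c
      have h5 := hw2 c
      have h6 := hw1 t c
      have h7 : (x.2.2.1 c2 : ℤ) * R = a + n := by exact_mod_cast hn
      have h8 : ((w2 c + n * x.2.2.1 c : ℕ) : ℤ) = (x.2.2.1 c2 * w1 t c : ℕ) := by
        push_cast
        rw [h5, h6]
        linear_combination - (x.2.2.1 c : ℤ) * h7
      simpa using (by exact_mod_cast h8 : w2 c + n * x.2.2.1 c = x.2.2.1 c2 * w1 t c)
    have hmem : x.2.2.1 c2 • w1 t ∈ Λ := hΛ _ (hw1Λ t) _ fun c hc h => hc (by simp [h])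
    have h5 := hsup w2 (n • x.2.2.1) (hsum ▸ hmem)
    rw [hsum, hhom _ _ hx.1, hhom _ _ (hw1Λ t)] at h5
    have h6 : ((r w2 : ℚ) + n * r x.2.2.1) ≤ x.2.2.1 c2 * r (w1 t) := by exact_mod_cast h5
    have h7 : (x.2.2.1 c2 : ℚ) * R = a + n := by exact_mod_cast hn
    have h8 := hb (Y t (x.2.2.1 c2) a w2) (hY t _ _ w2 hw2Λ hw2)
    have h9 : (WW N0 D r (Y t (x.2.2.1 c2) a w2) : ℚ) = η * mm (Y t (x.2.2.1 c2) a w2) := by
      refine le_antisymm h8 ?_
      have h10 := hEt t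
      rw [hWY, hmY]
      simp only [E] at h10
      push_cast at h10 ⊢
      rw [ht]
      have h11 : (n : ℚ) * r x.2.2.1 = (x.2.2.1 c2 : ℚ) * R * r x.2.2.1 - a * r x.2.2.1 := by
        rw [h7]; ring
      rw [h11] at h6
      have h12 : (x.2.2.1 c2 : ℚ) * (η * ∑ l, (kk t l : ℚ)) = x.2.2.1 c2 *
        ((N0 : ℚ) * ∑ j, (ct t j : ℚ) - ∑ l, (D l : ℚ) * kk t l -
        (r (w1 t) - R * r x.2.2.1)) := by rw [h10]
      linarith
    have h10 : 0 < mm (Y t (x.2.2.1 c2) a w2) := by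
      rw [hmY]
      have h11 : (0 : ℤ) ≤ (x.2.2.1 c2 : ℤ) * ∑ l, (kk t l : ℤ) :=
        mul_nonneg (Nat.cast_nonneg _) (Finset.sum_nonneg fun _ _ => Nat.cast_nonneg _)
      have h12 : (0 : ℤ) < a * mm x := mul_pos (by exact_mod_cast ha0) hm
      linarith
    have h11 : cv (Y t (x.2.2.1 c2) a w2) < cv x := by
      simp only [cv]
      refine Finset.card_lt_card (Finset.ssubset_iff_of_subset ?_ |>.2 ⟨c2, ?_, ?_⟩)
      · intro c hc
        rw [Finset.mem_filter] at hc ⊢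
        exact ⟨hc.1, hw2s c hc.2⟩
      · rw [Finset.mem_filter]
        exact ⟨Finset.mem_univ _, hc2v.ne'⟩
      · rw [Finset.mem_filter]
        exact fun h => h.2 hw2c
    rcases hmin _ (hY t _ _ w2 hw2Λ hw2) h10 h9 with h | h
    · omega
    · omega
  · -- all orders are nonnegative
    push Not at hneg
    obtain ⟨t, htk⟩ : ∃ t, 0 < ∑ l, (kk t l : ℤ) := by
      by_contra hcon
      push Not at hcon
      have h5 := Finset.sum_nonpos fun t (_ : t ∈ Finset.univ) => hcon t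
      rw [hkk1] at h5
      exact absurd h5 (not_le.2 hm)
    let w3 : κ → ℕ := fun c => (w0 t c).toNat
    have hw3 : ∀ c, (w3 c : ℤ) = w0 t c := fun c => Int.toNat_of_nonneg (hneg t c)
    have hw3Λ : w3 ∈ Λ := P3 0 w3 t fun c => by rw [hw3 c]; simp
    have hY3 := hY t 1 0 w3 hw3Λ fun c => by rw [hw3 c]; simp
    have hsum : w3 + R • x.2.2.1 = w1 t := by
      funext c
      have h6 := hw1 t c
      rw [← hw3 c] at h6
      simpa using (by exact_mod_cast h6.symm : w3 c + R * x.2.2.1 c = w1 t c)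
    have h5 := hsup w3 (R • x.2.2.1) (hsum ▸ hw1Λ t)
    rw [hsum, hhom _ _ hx.1] at h5
    have h6 : ((r w3 : ℚ) + R * r x.2.2.1) ≤ r (w1 t) := by exact_mod_cast h5
    have h8 := hb _ hY3
    have h9 : (WW N0 D r (Y t 1 0 w3) : ℚ) = η * mm (Y t 1 0 w3) := by
      refine le_antisymm h8 ?_
      have h10 := hEt t
      rw [hWY, hmY]
      simp only [E] at h10
      push_cast at h10 ⊢
      linarith
    have h10 : 0 < mm (Y t 1 0 w3) := by
      rw [hmY]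
      simpa using htk
    have hctle : ∀ j, ct t j ≤ x.1 j := fun j => hct j ▸
      Finset.single_le_sum (f := fun t => ct t j) (fun _ _ => Nat.zero_le _) (Finset.mem_univ t)
    have hkkle : ∀ l, kk t l ≤ x.2.1 l := fun l => hkl l ▸
      Finset.single_le_sum (f := fun t => kk t l) (fun _ _ => Nat.zero_le _) (Finset.mem_univ t)
    have hwle : ∀ c, w3 c ≤ x.2.2.1 c := by
      intro c
      have h11 : w0 t c ≤ ∑ t, w0 t c :=
        Finset.single_le_sum (f := fun t => w0 t c) (fun t _ => hneg t c) (Finset.mem_univ t)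
      rw [hws c, ← hw3 c] at h11
      exact_mod_cast h11
    have h11 : cv (Y t 1 0 w3) ≤ cv x := by
      simp only [cv]
      refine Finset.card_le_card fun c hc => ?_
      rw [Finset.mem_filter] at hc ⊢
      refine ⟨hc.1, fun h => hc.2 ?_⟩
      have := hwle c
      show w3 c = 0
      omega
    have h12 : sz x ≤ sz (Y t 1 0 w3) := by
      rcases hmin _ hY3 h10 h9 with h | h
      · omega
      · exact h.2
    have h13 : sz (Y t 1 0 w3) = ∑ i, ct t i + ∑ l, kk t l + ∑ c, w3 c := by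
      simp [sz, Y]
    rw [h13] at h12
    simp only [sz] at h12
    have h14 : ∑ i, ct t i ≤ ∑ i, x.1 i := Finset.sum_le_sum fun j _ => hctle j
    have h15 : ∑ l, kk t l ≤ ∑ l, x.2.1 l := Finset.sum_le_sum fun j _ => hkkle j
    have h16 : ∑ c, w3 c ≤ ∑ c, x.2.2.1 c := Finset.sum_le_sum fun j _ => hwle j
    have h17 := (Finset.sum_eq_sum_iff_of_le fun j _ => hctle j).1
      (show ∑ i, ct t i = ∑ i, x.1 i by omega)
    have h18 := (Finset.sum_eq_sum_iff_of_le fun j _ => hkkle j).1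
      (show ∑ l, kk t l = ∑ l, x.2.1 l by omega)
    have h19 := (Finset.sum_eq_sum_iff_of_le fun j _ => hwle j).1
      (show ∑ c, w3 c = ∑ c, x.2.2.1 c by omega)
    have htt : t = t0 := by
      by_contra hne
      apply hu0
      funext c
      have h20 := hwp t c
      have h21 : (x.2.2.1 c : ℤ) = w0 t c := by
        rw [← hw3 c, h19 c (Finset.mem_univ c)]
      have h22 : ∑ j, (ct t j : ℤ) * V0 j c ≤ ∑ j, (c' j : ℤ) * V0 j c := by
        refine Finset.sum_le_sum fun j _ => mul_le_mul_of_nonneg_right ?_ (Nat.cast_nonneg _)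
        have h23 : ct t j ≤ c' j := by
          simp only [ct, if_neg hne, add_zero]
          calc (∑ k : Fin (c' j), if τ ⟨j, k⟩ = t then 1 else 0) ≤ ∑ k : Fin (c' j), 1 :=
                Finset.sum_le_sum fun k _ => by split_ifs <;> simp
            _ = c' j := by simp
        exact_mod_cast h23
      have h23 : ut t c = 0 := by simp [ut, hne]
      have h24 : ∑ l, (kk t l : ℤ) * δ c l = ∑ l, (x.2.1 l : ℤ) * δ c l :=
        Finset.sum_congr rfl fun l _ => by rw [h18 l (Finset.mem_univ l)]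
      have h25 : (∑ j, (x.1 j : ℤ) * V0 j c) = ∑ j, (c' j : ℤ) * V0 j c + ∑ j, (e j : ℤ) * V0 j c := by
        rw [← Finset.sum_add_distrib]
        refine Finset.sum_congr rfl fun j _ => ?_
        rw [he j]
        push_cast
        ring
      have h26 : (u' c : ℤ) = x.2.2.2 c + ∑ j, (e j : ℤ) * V0 j c := by exact_mod_cast hu' c
      have h27 := hxq c
      rw [h23, h24] at h20
      have h28 : (u' c : ℤ) ≤ 0 := by
        rw [h25] at h27
        simp only [Nat.cast_zero] at h20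
        linarith
      have h29 : u' c ≤ 0 := by exact_mod_cast h28
      simpa using h29
    subst htt
    apply P5
    refine ⟨funext fun l => h18 l (Finset.mem_univ l), ?_⟩
    rintro ⟨j, k⟩
    have h20 := h17 j (Finset.mem_univ j)
    simp only [ct, if_true, he j] at h20
    have h21 : (∑ k : Fin (c' j), if τ ⟨j, k⟩ = t then 1 else 0) = ∑ k : Fin (c' j), 1 := by
      simp only [Finset.sum_const, Finset.card_univ, Fintype.card_fin, smul_eq_mul, mul_one]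
      omega
    have h22 := (Finset.sum_eq_sum_iff_of_le (fun k _ => by split_ifs <;> simp)).1 h21 k
      (Finset.mem_univ k)
    by_contra hne
    rw [if_neg hne] at h22
    exact absurd h22 (by norm_num)

/-- The extremal argument. -/
theorem ext : S_Ext := by
  intro ρ κ _ _ δ Λ A r N0 D s hΛ hA hAc hsup hhom hN0 hD hs hP ι _ V0 μ0 v0 hV hv0 hle
  classical
  by_contra hcon
  push Not at hcon
  let x0 : Dt ι ρ κ := (fun _ => 1, μ0, v0, fun c => v0 c + ∑ l, μ0 l * δ c l - ∑ i, V0 i c)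
  have hx0 : IsD δ Λ V0 x0 := by
    refine ⟨hv0, fun c => ?_⟩
    have h1 := hle c
    simp only [x0, one_mul]
    omega
  have hW0 : 0 < WW N0 D r x0 := by
    simp only [WW, x0]
    simp only [Nat.cast_one, Finset.sum_const, Finset.card_univ, nsmul_eq_mul, mul_one]
    linarith
  obtain ⟨η, hη, hb, y, hyD, hym, hyt⟩ := bound hΛ hsup
    (fun x hx hm => W_mu0 (D := D) hΛ hA hsup hhom hN0 hV x hx hm) x0 hx0 hW0
  obtain ⟨x, ⟨hx, hm, ht⟩, hmin⟩ := WellFounded.has_min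
    (InvImage.wf (fun x : Dt ι ρ κ => toLex (cv x, sz x)) wellFounded_lt)
    {x : Dt ι ρ κ | IsD δ Λ V0 x ∧ 0 < mm x ∧ (WW N0 D r x : ℚ) = η * mm x} ⟨y, hyD, hym, hyt⟩
  have hmin' : ∀ y : Dt ι ρ κ, IsD δ Λ V0 y → 0 < mm y → (WW N0 D r y : ℚ) = η * mm y →
      cv x < cv y ∨ (cv x = cv y ∧ sz x ≤ sz y) := by
    intro y h1 h2 h3
    have h4 := hmin y ⟨h1, h2, h3⟩
    rw [InvImage, Prod.Lex.toLex_lt_toLex] at h4
    push Not at h4
    simp only at h4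
    rcases lt_trichotomy (cv x) (cv y) with h | h | h
    · exact Or.inl h
    · exact Or.inr ⟨h, h4.2 h.symm⟩
    · exact absurd h4.1 (not_le.2 h)
  have hmq : (0 : ℚ) < mm x := by exact_mod_cast hm
  have hWx : 0 < WW N0 D r x := by
    have h1 : (0 : ℚ) < WW N0 D r x := by rw [ht]; exact mul_pos hη hmq
    exact_mod_cast h1
  have hxv : x.2.2.1 ≠ 0 := fun h => absurd (W_v0 (D := D) hD hs hV x hx h) (not_le.2 hWx)
  have hN : ∑ l, (x.2.1 l : ℤ) * s l * N0 ≤ ∑ l, (D l : ℤ) * x.2.1 l := by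
    refine Finset.sum_le_sum fun l _ => ?_
    have h1 := mul_le_mul_of_nonneg_right (hD l) (Nat.cast_nonneg (x.2.1 l) : (0 : ℤ) ≤ x.2.1 l)
    linarith
  rw [← Finset.sum_mul] at hN
  have hN0n : (0 : ℤ) ≤ N0 := Nat.cast_nonneg _
  by_cases hu : x.2.2.2 = 0
  · -- the defect is zero
    have hvA : x.2.2.1 ∈ A := hAc (fun i : (Σ j, Fin (x.1 j)) => V0 i.1) x.2.1 x.2.2.1
      (fun i => hV _) hx.1 hxv fun c => by
        rw [sigma_sum, ← hx.2 c, hu]
        simp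
    have h1 : (N0 : ℤ) ≤ r x.2.2.1 := by exact_mod_cast hN0 _ hvA
    have h2 : ∑ l, (x.2.1 l : ℤ) * s l < ∑ i, (x.1 i : ℤ) - 1 := by
      simp only [WW] at hWx
      have h3 : (∑ l, (x.2.1 l : ℤ) * s l) * N0 < (∑ i, (x.1 i : ℤ) - 1) * N0 := by linarith
      exact lt_of_mul_lt_mul_right h3 hN0n
    obtain ⟨j1, hj1⟩ : ∃ j1, 0 < x.1 j1 := by
      by_contra hc
      push Not at hc
      have h3 : ∀ i, x.1 i = 0 := fun i => Nat.le_zero.1 (hc i)
      apply hxv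
      funext c
      have h4 := hx.2 c
      simp only [h3, zero_mul, Finset.sum_const_zero, hu, Pi.zero_apply, zero_add] at h4
      show x.2.2.1 c = 0
      omega
    refine key (e := Pi.single j1 1) (c' := fun j => x.1 j - (Pi.single j1 1 : ι → ℕ) j)
      (u' := V0 j1) hΛ hsup hhom hP hV hη hb x hx hm ht hmin' hxv ?_ ?_ ?_ ?_
    · intro j
      by_cases h : j = j1
      · subst h
        simp only [Pi.single_eq_same]
        omega
      · simp [Pi.single_eq_of_ne h]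
    · intro c
      rw [hu]
      simp [Pi.single_apply]
    · intro h
      have h3 := hs (ι := Unit) (fun _ => V0 j1) (0 : ρ → ℕ) (fun _ => hV _) (fun c => by simp [h])
      simp at h3
    · have h3 : (∑ j, ((x.1 j - (Pi.single j1 1 : ι → ℕ) j : ℕ) : ℤ)) = ∑ j, (x.1 j : ℤ) - 1 := by
        have h4 : ∀ j, ((x.1 j - (Pi.single j1 1 : ι → ℕ) j : ℕ) : ℤ) =
            (x.1 j : ℤ) - (if j = j1 then 1 else 0) := by
          intro j
          by_cases h : j = j1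
          · subst h
            simp only [Pi.single_eq_same, if_true]
            omega
          · simp [Pi.single_eq_of_ne h, h]
        simp only [h4, Finset.sum_sub_distrib]
        simp
      rw [h3]
      exact h2
  · refine key (e := 0) (c' := x.1) (u' := x.2.2.2) hΛ hsup hhom hP hV hη hb x hx hm ht hmin' hxv
      (fun j => by simp) (fun c => by simp) hu ?_
    have h3 : (∑ l, (x.2.1 l : ℤ) * s l) * N0 < (∑ i, (x.1 i : ℤ)) * N0 := by
      simp only [WW] at hWx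
      have h4 : (0 : ℤ) ≤ r x.2.2.1 := Nat.cast_nonneg _
      linarith
    exact lt_of_mul_lt_mul_right h3 hN0n

end Pool.Agent.Q277.AB
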